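import Mathlib

/-!
Time-inhomogeneous chains on a measurable space driven by independent noise.
-/

open MeasureTheory ProbabilityTheory Filter
open scoped ENNReal

namespace Pool.Agent.Q209.Bus

variable {X S : Type*} [MeasurableSpace X] {ν : Measure X} [IsProbabilityMeasure ν]

/-- the chain driven by the noise `ω` -/
def tchain (step : ℕ → S → X → S) (z : S) (ω : ℕ → X) : ℕ → S
  | 0 => z
  | k + 1 => step k (tchain step z ω k) (ω k)

omit [MeasurableSpace X] in
theorem tchain_congr (step : ℕ → S → X → S) (z : S) {ω ω' : ℕ → X} (k : ℕ)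
    (h : ∀ i < k, ω i = ω' i) : tchain step z ω k = tchain step z ω' k := by
  induction k with
  | zero => rfl
  | succ k ih =>
    simp only [tchain]
    rw [ih (fun i hi => h i (by omega)), h k (by omega)]

variable [MeasurableSpace S]

theorem tchain_measurable {step : ℕ → S → X → S}
    (hs : ∀ k, Measurable (fun p : S × X => step k p.1 p.2)) (z : S) (k : ℕ) :
    Measurable (fun ω : ℕ → X => tchain step z ω k) := by
  induction k with
  | zero => exact measurable_const
  | succ k ih =>
    exact (hs k).comp (ih.prodMk (measurable_pi_apply k))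

theorem tchain_indep {step : ℕ → S → X → S}
    (hs : ∀ k, Measurable (fun p : S × X => step k p.1 p.2)) (z : S) (k : ℕ) :
    IndepFun (fun ω : ℕ → X => tchain step z ω k) (fun ω => ω k)
      (Measure.infinitePi fun _ : ℕ => ν) := by
  obtain ⟨x0⟩ : Nonempty X := by
    by_contra hcon
    rw [not_nonempty_iff] at hcon
    have h1 : ν Set.univ = 1 := measure_univ
    rw [Set.univ_eq_empty_iff.mpr hcon, measure_empty] at h1
    exact zero_ne_one h1
  have h1 : iIndepFun (fun (i : ℕ) (ω : ℕ → X) => ω i) (Measure.infinitePi fun _ : ℕ => ν) :=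
    iIndepFun_infinitePi (X := fun _ x => x) (fun _ => measurable_id)
  have h2 := h1.indepFun_finset (Finset.range k) {k} (by simp)
    (fun i => measurable_pi_apply i)
  let ext : ((Finset.range k) → X) → (ℕ → X) := fun r i =>
    if h : i ∈ Finset.range k then r ⟨i, h⟩ else x0
  have hext : Measurable ext := by
    refine measurable_pi_lambda _ fun i => ?_
    by_cases h : i ∈ Finset.range k
    · simp only [ext, dif_pos h]
      exact measurable_pi_apply _
    · simp only [ext, dif_neg h]
      exact measurable_const
  have h3 := h2.comp (φ := fun r => tchain step z (ext r) k)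
    (ψ := fun r : ({k} : Finset ℕ) → X => r ⟨k, Finset.mem_singleton_self k⟩)
    ((tchain_measurable hs z k).comp hext)
    (measurable_pi_apply (X := fun _ : ({k} : Finset ℕ) => X)
      (⟨k, Finset.mem_singleton_self k⟩ : ({k} : Finset ℕ)))
  have e1 : (fun ω : ℕ → X => tchain step z ω k) =
      (fun r => tchain step z (ext r) k) ∘ (fun (ω : ℕ → X) (i : Finset.range k) => ω i) := by
    ext ω
    simp only [Function.comp]
    apply tchain_congr
    intro i hi
    simp only [ext]
    rw [dif_pos (Finset.mem_range.mpr hi)]
  rw [e1]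
  exact h3

/-- one step of the chain, by Fubini -/
theorem measure_event {step : ℕ → S → X → S}
    (hs : ∀ k, Measurable (fun p : S × X => step k p.1 p.2)) (z : S) (k : ℕ)
    (E : Set (S × X)) (hE : MeasurableSet E) :
    (Measure.infinitePi fun _ : ℕ => ν) {ω | (tchain step z ω k, ω k) ∈ E} =
      ∫⁻ ω, ν {x | (tchain step z ω k, x) ∈ E} ∂(Measure.infinitePi fun _ : ℕ => ν) := by
  set μ := Measure.infinitePi fun _ : ℕ => ν with hμ
  have hm := tchain_measurable hs z k
  have h1 := (indepFun_iff_map_prod_eq_prod_map_map
    hm.aemeasurable (measurable_pi_apply k).aemeasurable).mp (tchain_indep (ν := ν) hs z k)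
  have hmap : μ.map (fun ω : ℕ → X => ω k) = ν := by
    rw [hμ]
    exact Measure.infinitePi_map_eval (fun _ : ℕ => ν) k
  have : IsProbabilityMeasure (μ.map fun ω => tchain step z ω k) :=
    Measure.isProbabilityMeasure_map hm.aemeasurable
  have h2 : μ {ω | (tchain step z ω k, ω k) ∈ E} =
      (μ.map fun ω => (tchain step z ω k, ω k)) E := by
    rw [Measure.map_apply (hm.prodMk (measurable_pi_apply k)) hE]
    rfl
  rw [h2, h1, hmap, Measure.prod_apply hE]
  rw [lintegral_map (measurable_measure_prodMk_left hE) hm]
  rfl

end Pool.Agent.Q209.Bus
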