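import Mathlib
import Pool.Agent.Q209.Bus.Chain

/-!
The detachment model: probabilities of collisions and of increases of the maximal group.
-/

open MeasureTheory ProbabilityTheory Filter
open scoped ENNReal

namespace Pool.Agent.Q209.Bus

/-- uniform law on `[0,1)` -/
noncomputable def unif : Measure ℝ := volume.restrict (Set.Ico (0 : ℝ) 1)

instance : IsProbabilityMeasure unif := ⟨by simp [unif]⟩

/-- noise of one time step: one uniform variable per passenger -/
noncomputable def slice : Measure (ℕ → ℝ) := Measure.infinitePi fun _ : ℕ => unif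

instance : IsProbabilityMeasure slice := by unfold slice; infer_instance

/-- all the noise -/
noncomputable def noise : Measure (ℕ → ℕ → ℝ) := Measure.infinitePi fun _ : ℕ => slice

instance : IsProbabilityMeasure noise := by unfold noise; infer_instance

/-- `bus ω k i` is the bus of passenger `i` at time `k` (for `k ≥ 1`): at time `k + 1` the
passenger moves to bus `k + 1` if `ω k i < 1 / (k + 1)` and otherwise stays. -/
noncomputable def bus (ω : ℕ → ℕ → ℝ) : ℕ → ℕ → ℕ
  | 0, _ => 1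
  | k + 1, i => if ω k i < 1 / ((k : ℝ) + 1) then k + 1 else bus ω k i

/-- the step of the configuration -/
noncomputable def bstep (k : ℕ) (s : ℕ → ℕ) (x : ℕ → ℝ) : ℕ → ℕ :=
  fun i => if x i < 1 / ((k : ℝ) + 1) then k + 1 else s i

theorem bus_eq (ω : ℕ → ℕ → ℝ) (k : ℕ) : bus ω k = tchain bstep (fun _ => 1) ω k := by
  induction k with
  | zero => ext i; rfl
  | succ k ih =>
    ext i
    simp only [bus, tchain, bstep, ih]

theorem bstep_measurable (k : ℕ) :
    Measurable (fun p : (ℕ → ℕ) × (ℕ → ℝ) => bstep k p.1 p.2) := by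
  refine measurable_pi_lambda _ fun i => ?_
  refine Measurable.ite ?_ measurable_const ((measurable_pi_apply i).comp measurable_fst)
  exact measurableSet_lt ((measurable_pi_apply i).comp measurable_snd) measurable_const

theorem bus_measurable (k : ℕ) : Measurable fun ω => bus ω k := by
  have := tchain_measurable (fun k => bstep_measurable k) (fun _ => 1) k
  simp only [← bus_eq] at this
  exact this

theorem bus_event (k : ℕ) (E : Set ((ℕ → ℕ) × (ℕ → ℝ))) (hE : MeasurableSet E) :
    noise {ω | (bus ω k, ω k) ∈ E} = ∫⁻ ω, slice {x | (bus ω k, x) ∈ E} ∂noise := by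
  have := measure_event (ν := slice) (fun k => bstep_measurable k) (fun _ => 1) k E hE
  simp only [← bus_eq] at this
  exact this

theorem bus_succ (ω : ℕ → ℕ → ℝ) (k : ℕ) : bus ω (k + 1) = bstep k (bus ω k) (ω k) := rfl

theorem bus_le (ω : ℕ → ℕ → ℝ) (k i : ℕ) (hk : 1 ≤ k) : 1 ≤ bus ω k i ∧ bus ω k i ≤ k := by
  induction k with
  | zero => omega
  | succ k ih =>
    simp only [bus]
    split_ifs with h
    · omega
    · rcases Nat.eq_zero_or_pos k with hk0 | hk0
      · subst hk0
        simp [bus]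
      · have := ih hk0
        omega

theorem unif_Iio {c : ℝ} (h0 : 0 ≤ c) (h1 : c ≤ 1) : unif (Set.Iio c) = ENNReal.ofReal c := by
  rw [unif, Measure.restrict_apply measurableSet_Iio]
  have : Set.Iio c ∩ Set.Ico 0 1 = Set.Ico 0 c := by
    ext x; simp only [Set.mem_inter_iff, Set.mem_Iio, Set.mem_Ico]
    constructor
    · rintro ⟨a, b, _⟩; exact ⟨b, a⟩
    · rintro ⟨a, b⟩; exact ⟨b, a, by linarith⟩
  rw [this, Real.volume_Ico, sub_zero]

theorem unif_Ici {c : ℝ} (h0 : 0 ≤ c) : unif (Set.Ici c) = ENNReal.ofReal (1 - c) := by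
  rw [unif, Measure.restrict_apply measurableSet_Ici]
  have : Set.Ici c ∩ Set.Ico 0 1 = Set.Ico c 1 := by
    ext x; simp only [Set.mem_inter_iff, Set.mem_Ici, Set.mem_Ico]
    constructor
    · rintro ⟨a, _, b⟩; exact ⟨a, b⟩
    · rintro ⟨a, b⟩; exact ⟨a, by linarith, b⟩
  rw [this, Real.volume_Ico]

theorem slice_one {c : ℝ} (h0 : 0 ≤ c) (h1 : c ≤ 1) (i : ℕ) :
    slice {x | x i < c} = ENNReal.ofReal c := by
  have h := Measure.infinitePi_pi (fun _ : ℕ => unif) (s := {i}) (t := fun _ => Set.Iio c)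
    (fun _ _ => measurableSet_Iio)
  rw [Finset.prod_singleton, unif_Iio h0 h1] at h
  rw [slice, ← h]
  congr 1
  ext x
  simp

theorem slice_two {c : ℝ} (h0 : 0 ≤ c) (h1 : c ≤ 1) {i j : ℕ} (hij : i ≠ j) :
    slice {x | x i < c ∧ x j < c} = ENNReal.ofReal (c ^ 2) := by
  have h := Measure.infinitePi_pi (fun _ : ℕ => unif) (s := {i, j}) (t := fun _ => Set.Iio c)
    (fun _ _ => measurableSet_Iio)
  rw [Finset.prod_pair hij, unif_Iio h0 h1, ← ENNReal.ofReal_mul h0] at h
  rw [slice, sq, ← h]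
  congr 1
  ext x
  simp

theorem slice_none {c : ℝ} (h0 : 0 ≤ c) (h1 : c ≤ 1) {i j : ℕ} (hij : i ≠ j) :
    slice {x | ¬ x i < c ∧ ¬ x j < c} = ENNReal.ofReal ((1 - c) ^ 2) := by
  have h := Measure.infinitePi_pi (fun _ : ℕ => unif) (s := {i, j}) (t := fun _ => Set.Ici c)
    (fun _ _ => measurableSet_Ici)
  rw [Finset.prod_pair hij, unif_Ici h0, ← ENNReal.ofReal_mul (by linarith)] at h
  rw [slice, sq, ← h]
  congr 1
  ext x
  simp

/-- two passengers share a bus at time `k` with probability at most `1/k` -/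
theorem collide (k : ℕ) (hk : 1 ≤ k) {i j : ℕ} (hij : i ≠ j) :
    noise {ω | bus ω k i = bus ω k j} ≤ ENNReal.ofReal (1 / k) := by
  induction k, hk using Nat.le_induction with
  | base =>
    refine (prob_le_one).trans ?_
    simp
  | succ k hk ih =>
    set c : ℝ := 1 / ((k : ℝ) + 1) with hc
    have hk0 : (0 : ℝ) < k := by exact_mod_cast hk
    have hc0 : 0 ≤ c := by positivity
    have hc1 : c ≤ 1 := by rw [hc, div_le_one (by positivity)]; linarith
    let E : Set ((ℕ → ℕ) × (ℕ → ℝ)) := {p | bstep k p.1 p.2 i = bstep k p.1 p.2 j}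
    have hE : MeasurableSet E := measurableSet_eq_fun
      ((measurable_pi_apply i).comp (bstep_measurable k))
      ((measurable_pi_apply j).comp (bstep_measurable k))
    have h1 : noise {ω | bus ω (k + 1) i = bus ω (k + 1) j} =
        ∫⁻ ω, slice {x | (bus ω k, x) ∈ E} ∂noise := by
      rw [← bus_event k E hE]
      rfl
    rw [h1]
    have hmeas : MeasurableSet {ω | bus ω k i = bus ω k j} := measurableSet_eq_fun
      ((measurable_pi_apply i).comp (bus_measurable k))
      ((measurable_pi_apply j).comp (bus_measurable k))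
    have h2 : ∀ ω, slice {x | (bus ω k, x) ∈ E} ≤ ENNReal.ofReal (c ^ 2) +
        ({ω | bus ω k i = bus ω k j} : Set _).indicator
          (fun _ => ENNReal.ofReal ((1 - c) ^ 2)) ω := by
      intro ω
      have hi := bus_le ω k i hk
      have hj := bus_le ω k j hk
      have hsub : {x | (bus ω k, x) ∈ E} ⊆ {x | x i < c ∧ x j < c} ∪
          {x | (¬ x i < c ∧ ¬ x j < c) ∧ bus ω k i = bus ω k j} := by
        intro x hx
        simp only [E, Set.mem_ofPred_eq, bstep, ← hc] at hx
        by_cases h3 : x i < c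
        · by_cases h4 : x j < c
          · exact Or.inl ⟨h3, h4⟩
          · rw [if_pos h3, if_neg h4] at hx
            omega
        · by_cases h4 : x j < c
          · rw [if_neg h3, if_pos h4] at hx
            omega
          · rw [if_neg h3, if_neg h4] at hx
            exact Or.inr ⟨⟨h3, h4⟩, hx⟩
      refine (measure_mono hsub).trans ((measure_union_le _ _).trans ?_)
      rw [slice_two hc0 hc1 hij]
      gcongr
      by_cases h3 : bus ω k i = bus ω k j
      · rw [Set.indicator_of_mem (show ω ∈ {ω | bus ω k i = bus ω k j} from h3)]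
        rw [← slice_none hc0 hc1 hij]
        exact measure_mono fun x hx => hx.1
      · have : {x : ℕ → ℝ | (¬ x i < c ∧ ¬ x j < c) ∧ bus ω k i = bus ω k j} = ∅ := by
          ext x; simp [h3]
        rw [this, measure_empty]
        exact bot_le
    refine (lintegral_mono h2).trans ?_
    rw [lintegral_add_left measurable_const, lintegral_const, measure_univ, mul_one,
      lintegral_indicator_const hmeas]
    have h3 : ENNReal.ofReal (c ^ 2) + ENNReal.ofReal ((1 - c) ^ 2) *
        noise {ω | bus ω k i = bus ω k j} ≤ ENNReal.ofReal (c ^ 2) +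
          ENNReal.ofReal ((1 - c) ^ 2) * ENNReal.ofReal (1 / k) := by gcongr
    refine h3.trans ?_
    rw [← ENNReal.ofReal_mul (by positivity), ← ENNReal.ofReal_add (by positivity) (by positivity)]
    apply ENNReal.ofReal_le_ofReal
    have hk1 : (k : ℝ) + 1 ≠ 0 := by positivity
    apply le_of_eq
    rw [hc]
    push_cast
    field_simp
    ring

theorem meas_inj (n : ℕ) : MeasurableSet {s : ℕ → ℕ | Set.InjOn s (Set.Icc 1 n)} := by
  have e : {s : ℕ → ℕ | Set.InjOn s (Set.Icc 1 n)} =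
      ⋂ i ∈ Set.Icc 1 n, ⋂ j ∈ Set.Icc 1 n, {s : ℕ → ℕ | s i = s j → i = j} := by
    ext s
    simp only [Set.InjOn, Set.mem_ofPred_eq, Set.mem_iInter]
  rw [e]
  refine MeasurableSet.biInter (Set.to_countable _) fun i _ =>
    MeasurableSet.biInter (Set.to_countable _) fun j _ => ?_
  by_cases hij : i = j
  · simp [hij]
  · have : {s : ℕ → ℕ | s i = s j → i = j} = {s : ℕ → ℕ | s i = s j}ᶜ := by
      ext s; simp [hij]
    rw [this]
    exact (measurableSet_eq_fun (measurable_pi_apply i) (measurable_pi_apply j)).compl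

/-- probability that the first `n` passengers are not in distinct buses at time `k` -/
theorem not_inj_le (k n : ℕ) (hk : 1 ≤ k) :
    noise {ω | ¬ Set.InjOn (bus ω k) (Set.Icc 1 n)} ≤ ENNReal.ofReal ((n : ℝ) ^ 2 / k) := by
  have hsub : {ω | ¬ Set.InjOn (bus ω k) (Set.Icc 1 n)} ⊆
      ⋃ p ∈ (Finset.Icc 1 n ×ˢ Finset.Icc 1 n).filter (fun p => p.1 ≠ p.2),
        {ω | bus ω k p.1 = bus ω k p.2} := by
    intro ω hω
    simp only [Set.InjOn, Set.mem_ofPred_eq, not_forall] at hω
    obtain ⟨i, hi, j, hj, h, hne⟩ := hω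
    simp only [Set.mem_iUnion]
    refine ⟨(i, j), ?_, h⟩
    rw [Finset.mem_filter, Finset.mem_product, Finset.mem_Icc, Finset.mem_Icc]
    exact ⟨⟨hi, hj⟩, hne⟩
  refine (measure_mono hsub).trans ((measure_biUnion_finset_le _ _).trans ?_)
  have h1 : ∑ p ∈ (Finset.Icc 1 n ×ˢ Finset.Icc 1 n).filter (fun p => p.1 ≠ p.2),
      noise {ω | bus ω k p.1 = bus ω k p.2} ≤
      ∑ _p ∈ (Finset.Icc 1 n ×ˢ Finset.Icc 1 n).filter (fun p => p.1 ≠ p.2),
        ENNReal.ofReal (1 / k) := by
    refine Finset.sum_le_sum fun p hp => ?_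
    rw [Finset.mem_filter] at hp
    exact collide k hk hp.2
  refine h1.trans ?_
  rw [Finset.sum_const, nsmul_eq_mul]
  have h2 : ((((Finset.Icc 1 n ×ˢ Finset.Icc 1 n).filter (fun p => p.1 ≠ p.2)).card : ℕ) : ℝ≥0∞)
      ≤ ((n ^ 2 : ℕ) : ℝ≥0∞) := by
    have h3 := Finset.card_filter_le (Finset.Icc 1 n ×ˢ Finset.Icc 1 n) (fun p => p.1 ≠ p.2)
    rw [Finset.card_product, Nat.card_Icc, Nat.add_sub_cancel, ← sq] at h3
    exact_mod_cast h3
  calc _ ≤ ((n ^ 2 : ℕ) : ℝ≥0∞) * ENNReal.ofReal (1 / k) := by gcongr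
    _ = ENNReal.ofReal ((n : ℝ) ^ 2 / k) := by
      rw [← ENNReal.ofReal_natCast, ← ENNReal.ofReal_mul (by positivity)]
      congr 1
      push_cast
      ring

/-- the event that the maximal group at time `k` is enlarged at time `k + 1` -/
def enl (k : ℕ) : Set ((ℕ → ℕ) × (ℕ → ℝ)) :=
  {p | ∃ n, ¬ Set.InjOn p.1 (Set.Icc 1 n) ∧ (∀ m < n, Set.InjOn p.1 (Set.Icc 1 m)) ∧
    Set.InjOn (bstep k p.1 p.2) (Set.Icc 1 n)}

theorem enl_meas (k : ℕ) : MeasurableSet (enl k) := by
  have e : enl k = ⋃ n, ({p : (ℕ → ℕ) × (ℕ → ℝ) | p.1 ∈ {s | Set.InjOn s (Set.Icc 1 n)}}ᶜ ∩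
      ((⋂ m ∈ Set.Iio n, {p : (ℕ → ℕ) × (ℕ → ℝ) | p.1 ∈ {s | Set.InjOn s (Set.Icc 1 m)}}) ∩
      {p : (ℕ → ℕ) × (ℕ → ℝ) | bstep k p.1 p.2 ∈ {s | Set.InjOn s (Set.Icc 1 n)}})) := by
    ext p
    simp only [enl, Set.mem_ofPred_eq, Set.mem_iUnion, Set.mem_inter_iff, Set.mem_compl_iff,
      Set.mem_iInter, Set.mem_Iio]
  rw [e]
  refine MeasurableSet.iUnion fun n => ?_
  refine MeasurableSet.inter (measurable_fst (meas_inj n)).compl (MeasurableSet.inter ?_ ?_)
  · exact MeasurableSet.biInter (Set.to_countable _) fun m _ => measurable_fst (meas_inj m)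
  · exact bstep_measurable k (meas_inj n)

theorem enl_slice (k : ℕ) (s : ℕ → ℕ) :
    slice {x | (s, x) ∈ enl k} ≤ ENNReal.ofReal (2 / ((k : ℝ) + 1)) := by
  classical
  set c : ℝ := 1 / ((k : ℝ) + 1) with hc
  have hc0 : 0 ≤ c := by positivity
  have hc1 : c ≤ 1 := by
    rw [hc, div_le_one (by positivity)]
    have : (0 : ℝ) ≤ k := Nat.cast_nonneg k
    linarith
  by_cases hex : ∃ n, ¬ Set.InjOn s (Set.Icc 1 n)
  · set n := Nat.find hex with hn
    have hn1 := Nat.find_spec hex
    have hn2 : ∀ m < n, Set.InjOn s (Set.Icc 1 m) := fun m hm => not_not.mp (Nat.find_min hex hm)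
    rw [← hn] at hn1
    have hn1' := hn1
    simp only [Set.InjOn, not_forall] at hn1'
    obtain ⟨i, hi, j, hj, hij, hne⟩ := hn1'
    -- one of the two is `n`
    obtain ⟨p, hp, hpn, hsp⟩ : ∃ p, p ∈ Set.Icc 1 n ∧ p ≠ n ∧ s p = s n := by
      by_cases h1 : i = n
      · exact ⟨j, hj, fun h => hne (h1.trans h.symm), by rw [← hij, h1]⟩
      · by_cases h2 : j = n
        · exact ⟨i, hi, h1, by rw [hij, h2]⟩
        · exfalso
          simp only [Set.mem_Icc] at hi hj
          have h3 := hn2 (n - 1) (by omega)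
          exact hne (h3 (Set.mem_Icc.mpr ⟨hi.1, by omega⟩)
            (Set.mem_Icc.mpr ⟨hj.1, by omega⟩) hij)
    have hsub : {x | (s, x) ∈ enl k} ⊆ {x | x n < c} ∪ {x | x p < c} := by
      rintro x ⟨m, hm1, hm2, hm3⟩
      simp only at hm1 hm2 hm3
      have hmn : m = n := by
        rcases lt_trichotomy m n with h | h | h
        · exact absurd (hn2 m h) hm1
        · exact h
        · exact absurd (hm2 n h) hn1
      subst hmn
      by_contra hcon
      simp only [Set.mem_union, Set.mem_ofPred_eq, not_or] at hcon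
      have hn0 : 1 ≤ n := by simp only [Set.mem_Icc] at hp; omega
      apply hpn
      apply hm3 hp (Set.mem_Icc.mpr ⟨hn0, le_rfl⟩)
      simp only [bstep, ← hc]
      rw [if_neg hcon.1, if_neg hcon.2, hsp]
    refine (measure_mono hsub).trans ((measure_union_le _ _).trans ?_)
    rw [slice_one hc0 hc1, slice_one hc0 hc1, ← ENNReal.ofReal_add hc0 hc0]
    apply ENNReal.ofReal_le_ofReal
    rw [hc]
    apply le_of_eq
    ring
  · have : {x | (s, x) ∈ enl k} = ∅ := by
      ext x
      simp only [enl, Set.mem_ofPred_eq, Set.mem_empty_iff_false, iff_false]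
      rintro ⟨m, hm1, _⟩
      exact hex ⟨m, hm1⟩
    rw [this, measure_empty]
    exact bot_le

theorem enl_prob (k : ℕ) :
    noise {ω | (bus ω k, ω k) ∈ enl k} ≤ ENNReal.ofReal (2 / ((k : ℝ) + 1)) := by
  rw [bus_event k _ (enl_meas k)]
  refine (lintegral_mono fun ω => enl_slice k (bus ω k)).trans ?_
  rw [lintegral_const, measure_univ, mul_one]

end Pool.Agent.Q209.Bus
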