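import Mathlib
import Pool.Agent.Q209.Bus.Model

/-!
The maximal detached group and its macroscopic jumps.
-/

open MeasureTheory ProbabilityTheory Filter
open scoped ENNReal

namespace Pool.Agent.Q209.Bus

/-- First detachment time of the passengers `1, …, n` (`⊤` if it never happens). -/
noncomputable def hatTau (ω : ℕ → ℕ → ℝ) (n : ℕ) : ℕ∞ :=
  ⨅ k ∈ {k : ℕ | 1 ≤ k ∧ Set.InjOn (bus ω k) (Set.Icc 1 n)}, (k : ℕ∞)

/-- `𝓜(k) = max {n : hatTau n ≤ k}`. -/
noncomputable def maxG (ω : ℕ → ℕ → ℝ) (k : ℕ) : ℕ := sSup {n : ℕ | hatTau ω n ≤ k}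

theorem hatTau_le (ω : ℕ → ℕ → ℝ) (n k : ℕ) :
    hatTau ω n ≤ k ↔ ∃ j, 1 ≤ j ∧ j ≤ k ∧ Set.InjOn (bus ω j) (Set.Icc 1 n) := by
  constructor
  · intro h
    by_contra hcon
    push Not at hcon
    have h1 : ((k + 1 : ℕ) : ℕ∞) ≤ hatTau ω n := by
      apply le_iInf₂
      rintro j ⟨hj1, hj2⟩
      have : k + 1 ≤ j := by
        by_contra h3
        exact hcon j hj1 (by omega) hj2
      exact_mod_cast this
    have h2 := h1.trans h
    have h3 : k + 1 ≤ k := by exact_mod_cast h2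
    omega
  · rintro ⟨j, hj1, hj2, hj3⟩
    refine (iInf₂_le j (show j ∈ {k : ℕ | 1 ≤ k ∧ Set.InjOn (bus ω k) (Set.Icc 1 n)} from
      ⟨hj1, hj3⟩)).trans ?_
    exact_mod_cast hj2

theorem inj_le (ω : ℕ → ℕ → ℝ) {j n : ℕ} (hj : 1 ≤ j)
    (h : Set.InjOn (bus ω j) (Set.Icc 1 n)) : n ≤ j := by
  have h1 : (Finset.Icc 1 n).card ≤ (Finset.Icc 1 j).card := by
    refine Finset.card_le_card_of_injOn (bus ω j) ?_ ?_
    · intro i _
      have := bus_le ω j i hj
      simp only [Finset.coe_Icc, Set.mem_Icc]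
      exact this
    · rwa [Finset.coe_Icc]
  simpa using h1

theorem le_maxG (ω : ℕ → ℕ → ℝ) (k n : ℕ) (hk : 1 ≤ k) :
    n ≤ maxG ω k ↔ ∃ j, 1 ≤ j ∧ j ≤ k ∧ Set.InjOn (bus ω j) (Set.Icc 1 n) := by
  have hbdd : BddAbove {n : ℕ | hatTau ω n ≤ k} := by
    refine ⟨k, fun n hn => ?_⟩
    rw [Set.mem_ofPred_eq, hatTau_le] at hn
    obtain ⟨j, h1, h2, h3⟩ := hn
    exact (inj_le ω h1 h3).trans h2
  have hne : {n : ℕ | hatTau ω n ≤ k}.Nonempty := by
    refine ⟨0, ?_⟩
    rw [Set.mem_ofPred_eq, hatTau_le]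
    exact ⟨1, le_rfl, hk, by simp⟩
  constructor
  · intro h
    have h1 := Nat.sSup_mem hne hbdd
    rw [Set.mem_ofPred_eq, hatTau_le] at h1
    obtain ⟨j, h1, h2, h3⟩ := h1
    exact ⟨j, h1, h2, h3.mono (Set.Icc_subset_Icc_right h)⟩
  · intro h
    exact le_csSup hbdd (by rw [Set.mem_ofPred_eq, hatTau_le]; exact h)

theorem maxG_mono (ω : ℕ → ℕ → ℝ) {k l : ℕ} (hk : 1 ≤ k) (hkl : k ≤ l) :
    maxG ω k ≤ maxG ω l := by
  rw [le_maxG ω l _ (hk.trans hkl)]
  obtain ⟨j, h1, h2, h3⟩ := (le_maxG ω k _ hk).mp le_rfl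
  exact ⟨j, h1, h2.trans hkl, h3⟩

theorem maxG_zero (ω : ℕ → ℕ → ℝ) : maxG ω 0 = 0 := by
  have : {n : ℕ | hatTau ω n ≤ (0 : ℕ)} = ∅ := by
    ext n
    simp only [Set.mem_ofPred_eq, Set.mem_empty_iff_false, iff_false]
    rw [hatTau_le]
    rintro ⟨j, h1, h2, _⟩
    omega
  rw [maxG, this]
  simp

theorem maxG_measurable (k : ℕ) : Measurable fun ω => maxG ω k := by
  rcases Nat.eq_zero_or_pos k with hk | hk
  · subst hk
    simp only [maxG_zero]
    exact measurable_const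
  · apply measurable_of_Ici
    intro n
    have e : (fun ω => maxG ω k) ⁻¹' Set.Ici n =
        ⋃ j ∈ Set.Icc 1 k, {ω | bus ω j ∈ {s | Set.InjOn s (Set.Icc 1 n)}} := by
      ext ω
      simp only [Set.mem_preimage, Set.mem_Ici, le_maxG ω k n hk, Set.mem_iUnion,
        Set.mem_ofPred_eq, Set.mem_Icc, exists_prop, and_assoc]
    rw [e]
    exact MeasurableSet.biUnion (Set.to_countable _) fun j _ => bus_measurable j (meas_inj n)

/-- an increase of the maximum is an enlargement of the current group -/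
theorem enl_of_lt (ω : ℕ → ℕ → ℝ) {k : ℕ} (hk : 1 ≤ k) (h : maxG ω k < maxG ω (k + 1)) :
    (bus ω k, ω k) ∈ enl k := by
  classical
  set n := maxG ω k + 1 with hn
  obtain ⟨j, h1, h2, h3⟩ := (le_maxG ω (k + 1) n (by omega)).mp h
  have hnk : ¬ n ≤ maxG ω k := by omega
  rw [le_maxG ω k n hk] at hnk
  push Not at hnk
  have hj : j = k + 1 := by
    by_contra hcon
    exact hnk j h1 (by omega) h3
  subst hj
  have hex : ∃ m, ¬ Set.InjOn (bus ω k) (Set.Icc 1 m) := ⟨n, hnk k hk le_rfl⟩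
  refine ⟨Nat.find hex, Nat.find_spec hex, fun m hm => not_not.mp (Nat.find_min hex hm), ?_⟩
  have h4 : Nat.find hex ≤ n := Nat.find_min' hex (hnk k hk le_rfl)
  exact h3.mono (Set.Icc_subset_Icc_right h4)

theorem inc_prob {k : ℕ} (hk : 1 ≤ k) :
    noise {ω | maxG ω k < maxG ω (k + 1)} ≤ ENNReal.ofReal (2 / ((k : ℝ) + 1)) :=
  (measure_mono fun _ hω => enl_of_lt _ hk hω).trans (enl_prob k)

/-- Number of increases in `[a, b)`. -/
noncomputable def incs (ω : ℕ → ℕ → ℝ) (a b : ℕ) : Finset ℕ :=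
  (Finset.Ico a b).filter fun k => maxG ω k < maxG ω (k + 1)

theorem tele (ω : ℕ → ℕ → ℝ) {a b : ℕ} (ha : 1 ≤ a) (hab : a ≤ b) :
    maxG ω b - maxG ω a = ∑ k ∈ incs ω a b, (maxG ω (k + 1) - maxG ω k) := by
  rw [incs, Finset.sum_filter]
  have e : ∀ k ∈ Finset.Ico a b, (if maxG ω k < maxG ω (k + 1) then
      (maxG ω (k + 1) - maxG ω k) else 0) = maxG ω (k + 1) - maxG ω k := by
    intro k hk
    rw [Finset.mem_Ico] at hk
    split_ifs with h
    · rfl
    · omega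
  rw [Finset.sum_congr rfl e]
  induction b, hab using Nat.le_induction with
  | base => simp
  | succ b hab ih =>
    rw [Finset.sum_Ico_succ_top hab, ← ih (fun k hk => by
      rw [Finset.mem_Ico] at hk
      exact e k (Finset.mem_Ico.mpr ⟨hk.1, by omega⟩))]
    have h1 := maxG_mono ω ha hab
    have h2 := maxG_mono ω (ha.trans hab) (show b ≤ b + 1 by omega)
    omega

theorem incs_prob {m c : ℕ} (hm : 1 ≤ m) (hc : 1 ≤ c) :
    noise {ω | 16 * c ≤ (incs ω (m ^ 2) (c * m ^ 2)).card} ≤ ENNReal.ofReal (1 / 8) := by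
  set a := m ^ 2 with ha
  have ha1 : 1 ≤ a := Nat.one_le_pow _ _ hm
  set b := c * a with hb
  have hmk : ∀ k, MeasurableSet {ω | maxG ω k < maxG ω (k + 1)} := fun k =>
    measurableSet_lt (maxG_measurable k) (maxG_measurable (k + 1))
  have hcard : ∀ ω, (((incs ω a b).card : ℕ) : ℝ≥0∞) =
      ∑ k ∈ Finset.Ico a b, ({ω | maxG ω k < maxG ω (k + 1)} : Set _).indicator
        (fun _ => (1 : ℝ≥0∞)) ω := by
    intro ω
    rw [incs, Finset.card_filter]
    push_cast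
    refine Finset.sum_congr rfl fun k _ => ?_
    by_cases h : maxG ω k < maxG ω (k + 1)
    · rw [if_pos h, Set.indicator_of_mem (show ω ∈ {ω | maxG ω k < maxG ω (k + 1)} from h)]
    · rw [if_neg h, Set.indicator_of_notMem (show ω ∉ {ω | maxG ω k < maxG ω (k + 1)} from h)]
  have hint : ∫⁻ ω, (((incs ω a b).card : ℕ) : ℝ≥0∞) ∂noise ≤ ENNReal.ofReal (2 * c) := by
    simp only [hcard]
    rw [lintegral_finsetSum _ fun k _ => measurable_const.indicator (hmk k)]
    simp only [lintegral_indicator_const (hmk _), one_mul]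
    calc ∑ k ∈ Finset.Ico a b, noise {ω | maxG ω k < maxG ω (k + 1)}
        ≤ ∑ k ∈ Finset.Ico a b, ENNReal.ofReal (2 / (a : ℝ)) := by
          refine Finset.sum_le_sum fun k hk => ?_
          rw [Finset.mem_Ico] at hk
          refine (inc_prob (ha1.trans hk.1)).trans (ENNReal.ofReal_le_ofReal ?_)
          have h1 : (a : ℝ) ≤ (k : ℝ) := by exact_mod_cast hk.1
          have h2 : (0 : ℝ) < a := by exact_mod_cast ha1
          exact div_le_div_of_nonneg_left (by norm_num) h2 (by linarith)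
      _ = ((b - a : ℕ) : ℝ≥0∞) * ENNReal.ofReal (2 / (a : ℝ)) := by
          rw [Finset.sum_const, Nat.card_Ico, nsmul_eq_mul]
      _ ≤ ((c * a : ℕ) : ℝ≥0∞) * ENNReal.ofReal (2 / (a : ℝ)) := by
          gcongr
          omega
      _ = ENNReal.ofReal (2 * c) := by
          rw [← ENNReal.ofReal_natCast, ← ENNReal.ofReal_mul (by positivity)]
          congr 1
          have h2 : (a : ℝ) ≠ 0 := by
            have : (0 : ℝ) < a := by exact_mod_cast ha1
            exact this.ne'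
          push_cast
          field_simp
  have hmark := meas_ge_le_lintegral_div (μ := noise)
    (f := fun ω => (((incs ω a b).card : ℕ) : ℝ≥0∞)) (by
      simp only [hcard]
      exact (Finset.measurable_fun_sum _ fun k _ =>
        measurable_const.indicator (hmk k)).aemeasurable)
    (ε := ((16 * c : ℕ) : ℝ≥0∞)) (by
      have : 16 * c ≠ 0 := by omega
      exact_mod_cast this) (ENNReal.natCast_ne_top _)
  have e1 : {ω | 16 * c ≤ (incs ω a b).card} =
      {ω | ((16 * c : ℕ) : ℝ≥0∞) ≤ (((incs ω a b).card : ℕ) : ℝ≥0∞)} := by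
    ext ω
    simp only [Set.mem_ofPred_eq, Nat.cast_le]
  rw [e1]
  refine hmark.trans ?_
  have hc0 : (0 : ℝ) < c := by exact_mod_cast hc
  calc _ ≤ ENNReal.ofReal (2 * c) / ((16 * c : ℕ) : ℝ≥0∞) := by gcongr
    _ = ENNReal.ofReal (1 / 8) := by
      rw [← ENNReal.ofReal_natCast, ← ENNReal.ofReal_div_of_pos (by positivity)]
      congr 1
      push_cast
      field_simp
      norm_num

/-- With probability at least `5/8` there is a macroscopic jump. -/
theorem jump_prob {m B c : ℕ} (hm : 1 ≤ m) (hc : c = 8 * (B + 1) ^ 2)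
    (hB : noise {ω | B * m ≤ maxG ω (m ^ 2)} ≤ ENNReal.ofReal (1 / 8)) :
    noise {ω | ∀ k, m ^ 2 ≤ k → k < c * m ^ 2 →
      16 * c * (maxG ω (k + 1) - maxG ω k) < m} ≤ ENNReal.ofReal (3 / 8) := by
  have hc1 : 1 ≤ c := by rw [hc]; have := Nat.one_le_pow 2 (B + 1) (by omega); omega
  have ha1 : 1 ≤ m ^ 2 := Nat.one_le_pow _ _ hm
  have hab : m ^ 2 ≤ c * m ^ 2 := Nat.le_mul_of_pos_left _ hc1
  have hsub : {ω | ∀ k, m ^ 2 ≤ k → k < c * m ^ 2 →
      16 * c * (maxG ω (k + 1) - maxG ω k) < m} ⊆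
      ({ω | B * m ≤ maxG ω (m ^ 2)} ∪
        {ω | ¬ Set.InjOn (bus ω (c * m ^ 2)) (Set.Icc 1 ((B + 1) * m))}) ∪
        {ω | 16 * c ≤ (incs ω (m ^ 2) (c * m ^ 2)).card} := by
    intro ω hω
    by_contra hcon
    simp only [Set.mem_union, Set.mem_ofPred_eq, not_or, not_le, not_not] at hcon
    obtain ⟨⟨h1, h2⟩, h3⟩ := hcon
    have h4 : (B + 1) * m ≤ maxG ω (c * m ^ 2) :=
      (le_maxG ω _ _ (ha1.trans hab)).mpr ⟨_, ha1.trans hab, le_rfl, h2⟩
    have h5 := tele ω ha1 hab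
    have h6 : m < maxG ω (c * m ^ 2) - maxG ω (m ^ 2) ∨ m ≤ maxG ω (c * m ^ 2) - maxG ω (m ^ 2) := by
      right
      have : (B + 1) * m = B * m + m := by ring
      omega
    have h7 : m ≤ maxG ω (c * m ^ 2) - maxG ω (m ^ 2) := by
      rcases h6 with h | h
      · exact h.le
      · exact h
    have h8 : ∑ k ∈ incs ω (m ^ 2) (c * m ^ 2), 16 * c * (maxG ω (k + 1) - maxG ω k) ≤
        ∑ _k ∈ incs ω (m ^ 2) (c * m ^ 2), (m - 1) := by
      refine Finset.sum_le_sum fun k hk => ?_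
      rw [incs, Finset.mem_filter, Finset.mem_Ico] at hk
      have := hω k hk.1.1 hk.1.2
      omega
    rw [← Finset.mul_sum, ← h5, Finset.sum_const, smul_eq_mul] at h8
    have h9 : 16 * c * m ≤ 16 * c * (maxG ω (c * m ^ 2) - maxG ω (m ^ 2)) :=
      Nat.mul_le_mul_left _ h7
    have h10 : (incs ω (m ^ 2) (c * m ^ 2)).card * (m - 1) ≤ 16 * c * (m - 1) :=
      Nat.mul_le_mul_right _ h3.le
    have h11 : 16 * c * m ≤ 16 * c * (m - 1) := h9.trans (h8.trans h10)
    have h12 : 16 * c * (m - 1) < 16 * c * m := by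
      apply Nat.mul_lt_mul_of_pos_left (by omega) (by omega)
    omega
  refine (measure_mono hsub).trans ((measure_union_le _ _).trans ?_)
  have h1 := measure_union_le (μ := noise) {ω | B * m ≤ maxG ω (m ^ 2)}
    {ω | ¬ Set.InjOn (bus ω (c * m ^ 2)) (Set.Icc 1 ((B + 1) * m))}
  have h2 := not_inj_le (c * m ^ 2) ((B + 1) * m) (ha1.trans hab)
  have h3 : ((((B + 1) * m : ℕ) : ℝ)) ^ 2 / ((c * m ^ 2 : ℕ) : ℝ) = 1 / 8 := by
    rw [hc]
    have hm0 : (m : ℝ) ≠ 0 := by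
      have : (0 : ℝ) < m := by exact_mod_cast hm
      exact this.ne'
    have hB0 : (B : ℝ) + 1 ≠ 0 := by positivity
    push_cast
    field_simp
  rw [h3] at h2
  have h4 := incs_prob (m := m) (c := c) hm hc1
  calc _ ≤ (ENNReal.ofReal (1 / 8) + ENNReal.ofReal (1 / 8)) + ENNReal.ofReal (1 / 8) := by
        gcongr
        exact h1.trans (add_le_add hB h2)
    _ = ENNReal.ofReal (3 / 8) := by
        rw [← ENNReal.ofReal_add (by norm_num) (by norm_num),
          ← ENNReal.ofReal_add (by norm_num) (by norm_num)]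
        norm_num

end Pool.Agent.Q209.Bus
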